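import Pool.Agent.Y278.MK.Stm

/-!
# PS: functions vanishing on a set which accumulates in the direction of the second axis
(project MK of helper278)
-/

set_option autoImplicit false

namespace Pool.Agent.Y590.MK

open Set Filter Topology
open scoped ContDiff

theorem ps_step (D : Set (ℝ × ℝ)) (G : ℝ × ℝ → ℂ) (U : Set (ℝ × ℝ)) (hD : IsOpen D)
    (hG : ContDiffOn ℝ ∞ G D) (hUD : U ⊆ D) (hU : ∀ u ∈ U, G u = 0)
    (hacc : ∀ u ∈ U, ∀ ε : ℝ, 0 < ε → ∃ v ∈ U, 0 < |v.2 - u.2| ∧ |v.2 - u.2| < ε ∧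
      |v.1 - u.1| ≤ ε * |v.2 - u.2|) : ∀ u ∈ U, fderiv ℝ G u (0, 1) = 0 := by
  intro u hu
  by_contra hne
  have hdiff : DifferentiableAt ℝ G u :=
    (hG.differentiableOn (by simp)).differentiableAt (hD.mem_nhds (hUD hu))
  have ha : 0 < ‖fderiv ℝ G u (0, 1)‖ := norm_pos_iff.2 hne
  set a := ‖fderiv ℝ G u (0, 1)‖ with ha_def
  set B := ‖fderiv ℝ G u (1, 0)‖ with hB_def
  have hB : 0 ≤ B := norm_nonneg _
  have hlo := hdiff.hasFDerivAt.isLittleO.def (c := a / 4) (by positivity)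
  rw [Metric.eventually_nhds_iff] at hlo
  obtain ⟨δ, hδ, hlo⟩ := hlo
  have hε : 0 < min (min 1 δ) (a / (4 * (B + 1))) := by positivity
  obtain ⟨v, hv, h1, h2, h3⟩ := hacc u hu _ hε
  set r := |v.2 - u.2| with hr
  have hε1 : min (min 1 δ) (a / (4 * (B + 1))) ≤ 1 := (min_le_left _ _).trans (min_le_left _ _)
  have hεδ : min (min 1 δ) (a / (4 * (B + 1))) ≤ δ := (min_le_left _ _).trans (min_le_right _ _)
  have hεa : min (min 1 δ) (a / (4 * (B + 1))) ≤ a / (4 * (B + 1)) := min_le_right _ _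
  have h4 : |v.1 - u.1| ≤ r := h3.trans (by nlinarith)
  have hnorm : ‖v - u‖ ≤ r := by
    rw [Prod.norm_def]
    exact max_le h4 le_rfl
  have hdist : dist v u < δ := by
    rw [dist_eq_norm]
    exact hnorm.trans_lt (h2.trans_le hεδ)
  have h5 := hlo hdist
  rw [hU v hv, hU u hu, sub_zero, zero_sub, norm_neg] at h5
  have h6 : v - u = (v.2 - u.2) • ((0, 1) : ℝ × ℝ) + (v.1 - u.1) • ((1, 0) : ℝ × ℝ) := by
    ext <;> simp
  have h7 : (v.2 - u.2) • fderiv ℝ G u (0, 1) =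
      fderiv ℝ G u (v - u) - (v.1 - u.1) • fderiv ℝ G u (1, 0) := by
    rw [h6, map_add, map_smul, map_smul]
    ring_nf
  have h8 : r * a ≤ a / 4 * ‖v - u‖ + |v.1 - u.1| * B := by
    have h9 : ‖(v.2 - u.2) • fderiv ℝ G u (0, 1)‖ = r * a := by
      rw [norm_smul, Real.norm_eq_abs]
    rw [← h9, h7]
    refine (norm_sub_le _ _).trans (add_le_add h5 ?_)
    rw [norm_smul, Real.norm_eq_abs]
  have h9 : |v.1 - u.1| * B ≤ a / 4 * r := by
    have h10 : |v.1 - u.1| * B ≤ (a / (4 * (B + 1)) * r) * B :=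
      mul_le_mul_of_nonneg_right (h3.trans (mul_le_mul_of_nonneg_right hεa h1.le)) hB
    refine h10.trans ?_
    have h11 : a / (4 * (B + 1)) * r * B = a / 4 * r * (B / (B + 1)) := by
      field_simp
    rw [h11]
    have h12 : B / (B + 1) ≤ 1 := by
      rw [div_le_one (by positivity)]
      linarith
    have h13 : 0 ≤ a / 4 * r := by positivity
    nlinarith
  have h10 : a / 4 * ‖v - u‖ ≤ a / 4 * r := mul_le_mul_of_nonneg_left hnorm (by positivity)
  nlinarith

theorem deriv_line (D : Set (ℝ × ℝ)) (G : ℝ × ℝ → ℂ) (hD : IsOpen D)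
    (hG : ContDiffOn ℝ ∞ G D) (x t : ℝ) (h : (x, t) ∈ D) :
    deriv (fun t => G (x, t)) t = fderiv ℝ G (x, t) (0, 1) := by
  have hdiff : DifferentiableAt ℝ G (x, t) :=
    (hG.differentiableOn (by simp)).differentiableAt (hD.mem_nhds h)
  have h1 : HasDerivAt (fun t : ℝ => ((x, t) : ℝ × ℝ)) (0, 1) t :=
    (hasDerivAt_const t x).prodMk (hasDerivAt_id t)
  exact (hdiff.hasFDerivAt.comp_hasDerivAt t h1).deriv

theorem ps_thm : Pool.Agent.Y278.MK.S_PS := by
  intro D G U hD hG hUD hU hacc u hu n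
  induction n generalizing G with
  | zero =>
    rw [iteratedDeriv_zero]
    exact hU u hu
  | succ n ih =>
    rw [iteratedDeriv_succ']
    have h1 : (deriv fun t => G (u.1, t)) =ᶠ[𝓝 u.2]
        fun t => (fun p : ℝ × ℝ => fderiv ℝ G p (0, 1)) (u.1, t) := by
      have h2 : ∀ᶠ t in 𝓝 u.2, (u.1, t) ∈ D := by
        have h3 : Continuous fun t : ℝ => ((u.1, t) : ℝ × ℝ) := by fun_prop
        exact h3.continuousAt.eventually_mem (hD.mem_nhds (hUD hu))
      filter_upwards [h2] with t ht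
      exact deriv_line D G hD hG u.1 t ht
    rw [h1.iteratedDeriv_eq]
    refine ih (fun p : ℝ × ℝ => fderiv ℝ G p (0, 1)) ?_ ?_
    · exact (hG.fderiv_of_isOpen hD (by simp)).clm_apply contDiffOn_const
    · exact ps_step D G U hD hG hUD hU hacc

end Pool.Agent.Y590.MK
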